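import Pool.Agent.Q20.RankDiam.Proof

/-!
Semigroups generated by three elements whose commuting graphs are connected of arbitrarily
large finite diameter.
-/

namespace Pool.Agent.Results.MP_cf426b_al.RankThreeLargeDiameter

open Q20.RankDiam

/-- **Positive answer to Q1, with `d = 3`.**  For every `D` there is a semigroup `S` of rank at
most `3` whose commuting graph is connected and has finite diameter at least `D`. -/
theorem result (D : ℕ) : ∃ (S : Type) (_ : Semigroup S), RankAtMost S 3 ∧
    (commutingGraph S).Connected ∧ (D : ℕ∞) ≤ (commutingGraph S).ediam ∧
      (commutingGraph S).ediam < ⊤ :=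
  main D

end Pool.Agent.Results.MP_cf426b_al.RankThreeLargeDiameter
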